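import Mathlib
import Pool.Agent.Helper55.SharpAlg
import Pool.Agent.Helper55.SharpAn

set_option autoImplicit false

open Polynomial

namespace Pool.Agent.Results.MP_bf7c2b_nt.SharpFour

/-- The conjugates of `α` over `ℚ`: the complex roots of its minimal polynomial. -/
noncomputable def conjugates (α : ℂ) : Finset ℂ := ((minpoly ℚ α).aroots ℂ).toFinset

/-- The real conjugates of `α`. -/
noncomputable def realConj (α : ℂ) : Finset ℂ := (conjugates α).filter (fun z => z.im = 0)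

/-- One conjugate out of each pair of complex-conjugate non-real conjugates of `α`:
the one in the upper half plane. -/
noncomputable def upperConj (α : ℂ) : Finset ℂ := (conjugates α).filter (fun z => 0 < z.im)

/-- The absolute square size of `α`. -/
noncomputable def sqSize (α : ℂ) : ℝ :=
  ∑ z ∈ realConj α, ‖z‖ ^ 2 + ∑ z ∈ upperConj α, ‖z‖ ^ 2

/-- The degree of `α` over `ℚ`. -/
noncomputable def deg (α : ℂ) : ℕ := (minpoly ℚ α).natDegree

/-- The lower bound `n 2^(s/n-1)` for the absolute square size is sharp for the number `s` of real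
conjugates. -/
def IsSharpFor (s : ℕ) : Prop :=
  ∀ ε : ℝ, 0 < ε → ∃ α : ℂ, IsIntegral ℤ α ∧ α ≠ 0 ∧ 2 ≤ deg α ∧ (realConj α).card = s ∧
    sqSize α < (deg α : ℝ) * 2 ^ ((s : ℝ) / (deg α : ℝ) - 1) + ε

open Pool.Agent.Helper55.Sharp

section

variable {M : ℕ}

lemma Q_eval_F (z : ℂ) : (Q M).eval z = F M (z ^ 2) := by
  rw [Q_eval]; unfold F; ring

lemma Q_monic (hM : 2 ≤ M) : (Q M).Monic := (P_monic M hM).map _

lemma Q_natDegree (hM : 2 ≤ M) : (Q M).natDegree = 4 * (M + 1) := by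
  unfold Q
  rw [(P_monic M hM).natDegree_map, P_natDegree M hM]

lemma aroots_eq {α : ℂ} {i : ℕ} (hM : 2 ≤ M) (hMi : M + 1 = 2 ^ i)
    (hα : aeval α (P M) = 0) : (minpoly ℚ α).aroots ℂ = (Q M).roots := by
  rw [minpoly_eq M i hM hMi α hα, aroots_map]
  rfl

lemma roots_nodup {i : ℕ} (hM : 2 ≤ M) (hMi : M + 1 = 2 ^ i) : (Q M).roots.Nodup := by
  have hsep : ((P M).map (algebraMap ℤ ℚ)).Separable := (P_irreducible_rat M i hM hMi).separable
  have h2 : (((P M).map (algebraMap ℤ ℚ)).map (algebraMap ℚ ℂ)).Separable := hsep.map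
  rw [Polynomial.map_map] at h2
  have h3 : ((algebraMap ℚ ℂ).comp (algebraMap ℤ ℚ)) = algebraMap ℤ ℂ := by
    ext; simp
  rw [h3] at h2
  exact nodup_roots h2

lemma conj_mem {α : ℂ} {i : ℕ} (hM : 2 ≤ M) (hMi : M + 1 = 2 ^ i)
    (hα : aeval α (P M) = 0) (z : ℂ) : z ∈ conjugates α ↔ F M (z ^ 2) = 0 := by
  unfold conjugates
  rw [aroots_eq hM hMi hα, Multiset.mem_toFinset, mem_roots (Q_monic hM).ne_zero, IsRoot.def,
    Q_eval_F]

lemma conj_card {α : ℂ} {i : ℕ} (hM : 2 ≤ M) (hMi : M + 1 = 2 ^ i)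
    (hα : aeval α (P M) = 0) : (conjugates α).card = 4 * (M + 1) := by
  unfold conjugates
  rw [aroots_eq hM hMi hα, Multiset.toFinset_card_of_nodup (roots_nodup hM hMi),
    ← (IsAlgClosed.splits (Q M)).natDegree_eq_card_roots, Q_natDegree hM]

lemma conj_prod {α : ℂ} {i : ℕ} (hM : 2 ≤ M) (hMi : M + 1 = 2 ^ i)
    (hα : aeval α (P M) = 0) : ∏ z ∈ conjugates α, ‖z‖ = 1 := by
  have h1 := (IsAlgClosed.splits (Q M)).coeff_zero_eq_prod_roots_of_monic (Q_monic hM)
  have h2 : (Q M).coeff 0 = 1 := by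
    unfold Q
    rw [coeff_map, P_coeff_zero M hM]; simp
  have h3 : ∏ z ∈ conjugates α, z = (Q M).roots.prod := by
    unfold conjugates
    rw [aroots_eq hM hMi hα, Finset.prod, Multiset.toFinset_val,
      (roots_nodup hM hMi).dedup, Multiset.map_id']
  rw [h2, ← h3] at h1
  have h4 := congrArg norm h1
  rw [norm_one, norm_mul, norm_pow, norm_neg, norm_one, one_pow, one_mul, norm_prod] at h4
  exact h4.symm

/-- A bound for a summand belonging to a root near `1/2`. -/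
lemma log_bound {y : ℝ} (hy : 1 / 4 ≤ y) :
    y - 1 / 2 * Real.log y ≤ 1 / 2 + 1 / 2 * Real.log 2 + (1 - 2 * y) ^ 2 := by
  have hy0 : 0 < y := by linarith
  have h1 : Real.log (1 / (2 * y)) ≤ 1 / (2 * y) - 1 := Real.log_le_sub_one_of_pos (by positivity)
  rw [Real.log_div one_ne_zero (by positivity), Real.log_one, Real.log_mul (by norm_num) hy0.ne']
    at h1
  have h2 : 1 / (2 * y) * y = 1 / 2 := by field_simp
  have h3 : 0 < 1 / (2 * y) := by positivity
  have h4 : 1 / (2 * y) ≤ 2 := by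
    rw [div_le_iff₀ (by positivity)]; linarith
  -- `y + (1/2)(1/(2y) - 1) - 1/2 = (1-2y)^2/(4y)`
  have h5 : y + 1 / 2 * (1 / (2 * y) - 1) - 1 / 2 = (1 - 2 * y) ^ 2 * (1 / (2 * y)) / 2 := by
    field_simp
    ring
  have h6 : (1 - 2 * y) ^ 2 * (1 / (2 * y)) / 2 ≤ (1 - 2 * y) ^ 2 := by
    nlinarith [sq_nonneg (1 - 2 * y)]
  linarith

/-- The bound for the other roots. -/
lemma exp_bound {y δ : ℝ} (hy : 0 < y) (h : |Real.log y| ≤ δ) (hδ : δ ≤ 1) :
    y ≤ 1 + Real.log y + δ ^ 2 := by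
  have h1 := Real.abs_exp_sub_one_sub_id_le (h.trans hδ)
  rw [Real.exp_log hy] at h1
  have h2 := (abs_le.1 h1).2
  have h3 : Real.log y ^ 2 ≤ δ ^ 2 := by
    rw [← sq_abs]
    have := abs_nonneg (Real.log y)
    gcongr
  linarith

lemma target_bound {n : ℝ} (hn : 0 < n) :
    n / 2 + 2 * Real.log 2 ≤ n * 2 ^ ((4 : ℝ) / n - 1) := by
  have h1 : (2 : ℝ) ^ ((4 : ℝ) / n - 1) = Real.exp (4 / n * Real.log 2) / 2 := by
    rw [Real.rpow_sub (by norm_num), Real.rpow_one, Real.rpow_def_of_pos (by norm_num), mul_comm]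
  have h2 := Real.add_one_le_exp (4 / n * Real.log 2)
  rw [h1]
  calc n / 2 + 2 * Real.log 2 = n * ((4 / n * Real.log 2 + 1) / 2) := by field_simp; ring
    _ ≤ n * (Real.exp (4 / n * Real.log 2) / 2) := by gcongr

lemma near_eq (hM : Good M) {a b : ℝ} (ha0 : 0 < a) (hab : a < b) (hb : b < 9 / 10)
    (ha : FR M a = 0) (hb' : FR M b = 0) {w : ℂ} (hw : ‖w‖ ≤ 9 / 10) (h : F M w = 0) :
    w = a ∨ w = b := by
  by_contra hcon
  push Not at hcon
  have e1 : ‖(a : ℂ)‖ ≤ 9 / 10 := by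
    rw [Complex.norm_real, Real.norm_eq_abs, abs_of_pos ha0]; linarith
  have e2 : ‖(b : ℂ)‖ ≤ 9 / 10 := by
    rw [Complex.norm_real, Real.norm_eq_abs, abs_of_pos (ha0.trans hab)]; linarith
  have e3 : F M (a : ℂ) = 0 := by rw [F_ofReal, ha]; simp
  have e4 : F M (b : ℂ) = 0 := by rw [F_ofReal, hb']; simp
  have e5 : (a : ℂ) ≠ b := by
    intro h; rw [Complex.ofReal_inj] at h; linarith
  exact no_three hM hw h e1 e3 e2 e4 hcon.1 hcon.2 e5

/-- real conjugates -/
lemma mem_real (hM : Good M) {a b : ℝ} (ha0 : 0 < a) (hab : a < b) (hb : b < 9 / 10)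
    (ha : FR M a = 0) (hb' : FR M b = 0) (z : ℂ) :
    (F M (z ^ 2) = 0 ∧ z.im = 0) ↔
      z ∈ ({(Real.sqrt a : ℂ), -(Real.sqrt a : ℂ), (Real.sqrt b : ℂ), -(Real.sqrt b : ℂ)} :
        Finset ℂ) := by
  have hb0 : 0 < b := ha0.trans hab
  have sa : (Real.sqrt a : ℂ) ^ 2 = a := by
    rw [← Complex.ofReal_pow, Real.sq_sqrt ha0.le]
  have sb : (Real.sqrt b : ℂ) ^ 2 = b := by
    rw [← Complex.ofReal_pow, Real.sq_sqrt hb0.le]
  have e3 : F M (a : ℂ) = 0 := by rw [F_ofReal, ha]; simp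
  have e4 : F M (b : ℂ) = 0 := by rw [F_ofReal, hb']; simp
  simp only [Finset.mem_insert, Finset.mem_singleton]
  constructor
  · rintro ⟨h1, h2⟩
    obtain ⟨t, rfl⟩ : ∃ t : ℝ, z = t := ⟨z.re, by
      apply Complex.ext <;> simp [h2]⟩
    have h3 : ((t : ℂ) ^ 2) = ((t ^ 2 : ℝ) : ℂ) := by push_cast; ring
    have h4 : t ^ 2 < 9 / 10 := by
      by_contra hcon
      push Not at hcon
      have := FR_pos hM hcon
      rw [h3, F_ofReal] at h1
      have h5 : FR M (t ^ 2) = 0 := by exact_mod_cast h1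
      linarith
    have h5 : ‖(t : ℂ) ^ 2‖ ≤ 9 / 10 := by
      rw [h3, Complex.norm_real, Real.norm_eq_abs, abs_of_nonneg (sq_nonneg t)]
      exact h4.le
    rcases near_eq hM ha0 hab hb ha hb' h5 h1 with h6 | h6
    · rw [← sa] at h6
      rcases sq_eq_sq_iff_eq_or_eq_neg.1 h6 with h7 | h7
      · exact Or.inl h7
      · exact Or.inr (Or.inl h7)
    · rw [← sb] at h6
      rcases sq_eq_sq_iff_eq_or_eq_neg.1 h6 with h7 | h7
      · exact Or.inr (Or.inr (Or.inl h7))
      · exact Or.inr (Or.inr (Or.inr h7))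
  · rintro (rfl | rfl | rfl | rfl)
    · exact ⟨by rw [sa]; exact e3, by simp⟩
    · exact ⟨by rw [neg_sq, sa]; exact e3, by simp⟩
    · exact ⟨by rw [sb]; exact e4, by simp⟩
    · exact ⟨by rw [neg_sq, sb]; exact e4, by simp⟩

lemma card_four {a b : ℝ} (ha0 : 0 < a) (hab : a < b) :
    ({(Real.sqrt a : ℂ), -(Real.sqrt a : ℂ), (Real.sqrt b : ℂ), -(Real.sqrt b : ℂ)} :
        Finset ℂ).card = 4 := by
  have h1 : 0 < Real.sqrt a := Real.sqrt_pos.2 ha0
  have h2 : Real.sqrt a < Real.sqrt b := Real.sqrt_lt_sqrt ha0.le hab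
  rw [Finset.card_insert_of_notMem, Finset.card_insert_of_notMem, Finset.card_insert_of_notMem,
    Finset.card_singleton]
  · rw [Finset.mem_singleton, ← Complex.ofReal_neg, Complex.ofReal_inj]
    linarith
  · rw [Finset.mem_insert, Finset.mem_singleton, ← Complex.ofReal_neg, ← Complex.ofReal_neg,
      Complex.ofReal_inj, Complex.ofReal_inj]
    rintro (h | h) <;> linarith
  · rw [Finset.mem_insert, Finset.mem_insert, Finset.mem_singleton, ← Complex.ofReal_neg,
      ← Complex.ofReal_neg, Complex.ofReal_inj, Complex.ofReal_inj, Complex.ofReal_inj]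
    rintro (h | h | h) <;> linarith

lemma F_conj (w : ℂ) : F M ((starRingEnd ℂ) w) = (starRingEnd ℂ) (F M w) := by
  have h2 : (starRingEnd ℂ) 2 = 2 := Complex.conj_ofNat 2
  simp [F, h2]

lemma upper_sum {α : ℂ} (hmem : ∀ z, z ∈ conjugates α ↔ F M (z ^ 2) = 0) :
    ∑ z ∈ upperConj α, ‖z‖ ^ 2 =
      1 / 2 * ∑ z ∈ (conjugates α).filter (fun z => ¬ z.im = 0), ‖z‖ ^ 2 := by
  have hlow : ∑ z ∈ (conjugates α).filter (fun z => z.im < 0), ‖z‖ ^ 2 =
      ∑ z ∈ upperConj α, ‖z‖ ^ 2 := by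
    apply Finset.sum_bij' (fun z _ => (starRingEnd ℂ) z) (fun z _ => (starRingEnd ℂ) z)
    · intro z hz
      unfold upperConj
      rw [Finset.mem_filter] at hz ⊢
      refine ⟨?_, by simpa using hz.2⟩
      rw [hmem, ← map_pow, F_conj, (hmem z).1 hz.1, map_zero]
    · intro z hz
      unfold upperConj at hz
      rw [Finset.mem_filter] at hz ⊢
      refine ⟨?_, by simpa using hz.2⟩
      rw [hmem, ← map_pow, F_conj, (hmem z).1 hz.1, map_zero]
    · intro z _; simp
    · intro z _; simp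
    · intro z _; simp
  have hsplit : (conjugates α).filter (fun z => ¬ z.im = 0) =
      (conjugates α).filter (fun z => z.im < 0) ∪ upperConj α := by
    unfold upperConj
    rw [← Finset.filter_or]
    apply Finset.filter_congr
    intro z _
    exact ⟨fun h => lt_or_gt_of_ne h, fun h => by rcases h with h | h <;> linarith⟩
  have hdisj : Disjoint ((conjugates α).filter (fun z => z.im < 0)) (upperConj α) := by
    unfold upperConj
    apply Finset.disjoint_filter_filter'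
    rw [Pi.disjoint_iff]
    intro z
    rw [Prop.disjoint_iff]
    rintro ⟨h1, h2⟩
    linarith
  rw [hsplit, Finset.sum_union hdisj, hlow]
  ring

lemma main_bound (hM : Good M) {i : ℕ} (hMi : M + 1 = 2 ^ i) {α : ℂ}
    (hα : aeval α (P M) = 0) :
    (realConj α).card = 4 ∧ sqSize α ≤ (4 * ((M : ℝ) + 1)) / 2 + 2 * Real.log 2 +
      (20 * (9 / 10 : ℝ) ^ M + 18 / ((M : ℝ) + 1)) := by
  obtain ⟨a, b, ha0, hab, hb, ha, hb'⟩ := exists_roots hM
  have hmem := conj_mem hM.two_le hMi hα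
  have hreal : realConj α =
      {(Real.sqrt a : ℂ), -(Real.sqrt a : ℂ), (Real.sqrt b : ℂ), -(Real.sqrt b : ℂ)} := by
    ext z
    rw [← mem_real hM ha0 hab hb ha hb' z]
    unfold realConj
    rw [Finset.mem_filter, hmem]
  have hcard4 : (realConj α).card = 4 := by rw [hreal]; exact card_four ha0 hab
  refine ⟨hcard4, ?_⟩
  have hM1 : (0 : ℝ) < (M : ℝ) + 1 := by positivity
  set N := (conjugates α).filter (fun z => ¬ z.im = 0) with hN
  have hcardN : ((N.card : ℕ) : ℝ) = 4 * ((M : ℝ) + 1) - 4 := by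
    have h1 := Finset.card_filter_add_card_filter_not (s := conjugates α) (fun z => z.im = 0)
    have h2 : ((conjugates α).filter (fun z => z.im = 0)).card = 4 := hcard4
    rw [h2, conj_card hM.two_le hMi hα] at h1
    have h3 : ((4 + N.card : ℕ) : ℝ) = ((4 * (M + 1) : ℕ) : ℝ) := by exact_mod_cast h1
    push_cast at h3
    linarith
  -- all conjugates are non-zero
  have hne : ∀ z ∈ conjugates α, 0 < ‖z‖ := by
    intro z hz
    rw [norm_pos_iff]
    rintro rfl
    have h1 := (hmem 0).1 hz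
    have h2 : F M ((0 : ℂ) ^ 2) = 1 := by
      have := hM.two_le
      simp [F, show M ≠ 0 by omega]
    rw [h2] at h1
    exact one_ne_zero h1
  -- the logarithms sum to zero
  have hlog : ∑ z ∈ conjugates α, Real.log (‖z‖ ^ 2) = 0 := by
    have h1 := congrArg Real.log (conj_prod hM.two_le hMi hα)
    rw [Real.log_prod (fun z hz => (hne z hz).ne'), Real.log_one] at h1
    simp_rw [Real.log_pow]
    rw [← Finset.mul_sum, h1, mul_zero]
  have hlog2 : ∑ z ∈ N, Real.log (‖z‖ ^ 2) = - ∑ z ∈ realConj α, Real.log (‖z‖ ^ 2) := by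
    have h1 := Finset.sum_filter_add_sum_filter_not (conjugates α) (fun z => z.im = 0)
      (fun z => Real.log (‖z‖ ^ 2))
    rw [hlog] at h1
    have h2 : ∑ z ∈ realConj α, Real.log (‖z‖ ^ 2) + ∑ z ∈ N, Real.log (‖z‖ ^ 2) = 0 := h1
    linarith
  set δ : ℝ := 3 / ((M : ℝ) + 1) with hδ
  have hδ1 : δ ≤ 1 := by
    rw [hδ, div_le_one hM1]
    have : (2 : ℝ) ≤ M := by exact_mod_cast hM.two_le
    linarith
  -- the non-real conjugates
  have hNsum : ∑ z ∈ N, ‖z‖ ^ 2 ≤ ∑ z ∈ N, (1 + Real.log (‖z‖ ^ 2) + δ ^ 2) := by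
    apply Finset.sum_le_sum
    intro z hz
    rw [hN, Finset.mem_filter] at hz
    have hz1 := (hmem z).1 hz.1
    have hz2 := hne z hz.1
    have hfar : 9 / 10 < ‖z ^ 2‖ := by
      by_contra hcon
      push Not at hcon
      have hzz : z ∈ realConj α := by
        rw [hreal]
        have sa : (Real.sqrt a : ℂ) ^ 2 = a := by
          rw [← Complex.ofReal_pow, Real.sq_sqrt ha0.le]
        have sb : (Real.sqrt b : ℂ) ^ 2 = b := by
          rw [← Complex.ofReal_pow, Real.sq_sqrt (ha0.trans hab).le]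
        simp only [Finset.mem_insert, Finset.mem_singleton]
        rcases near_eq hM ha0 hab hb ha hb' hcon hz1 with h6 | h6
        · rw [← sa] at h6
          rcases sq_eq_sq_iff_eq_or_eq_neg.1 h6 with h7 | h7
          · exact Or.inl h7
          · exact Or.inr (Or.inl h7)
        · rw [← sb] at h6
          rcases sq_eq_sq_iff_eq_or_eq_neg.1 h6 with h7 | h7
          · exact Or.inr (Or.inr (Or.inl h7))
          · exact Or.inr (Or.inr (Or.inr h7))
      unfold realConj at hzz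
      rw [Finset.mem_filter] at hzz
      exact hz.2 hzz.2
    have h8 := far_log hM hfar hz1
    rw [norm_pow] at h8
    exact exp_bound (by positivity) h8 hδ1
  have hNsum2 : ∑ z ∈ N, (1 + Real.log (‖z‖ ^ 2) + δ ^ 2) =
      (4 * ((M : ℝ) + 1) - 4) * (1 + δ ^ 2) - ∑ z ∈ realConj α, Real.log (‖z‖ ^ 2) := by
    rw [Finset.sum_add_distrib, Finset.sum_add_distrib, hlog2, Finset.sum_const, Finset.sum_const,
      nsmul_eq_mul, nsmul_eq_mul, hcardN]
    ring
  -- the real conjugates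
  have hRsum : ∑ z ∈ realConj α, (‖z‖ ^ 2 - 1 / 2 * Real.log (‖z‖ ^ 2)) ≤
      ∑ z ∈ realConj α, (1 / 2 + 1 / 2 * Real.log 2 + 5 * (9 / 10 : ℝ) ^ M) := by
    apply Finset.sum_le_sum
    intro z hz
    have hz0 : z ∈ conjugates α := (Finset.mem_filter.1 hz).1
    have hz1 := (hmem z).1 hz0
    rw [hreal, ← mem_real hM ha0 hab hb ha hb' z] at hz
    obtain ⟨t, rfl⟩ : ∃ t : ℝ, z = t := ⟨z.re, by
      apply Complex.ext <;> simp [hz.2]⟩
    have h3 : ((t : ℂ) ^ 2) = ((t ^ 2 : ℝ) : ℂ) := by push_cast; ring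
    have h4 : t ^ 2 < 9 / 10 := by
      by_contra hcon
      push Not at hcon
      have := FR_pos hM hcon
      rw [h3, F_ofReal] at hz1
      have h5 : FR M (t ^ 2) = 0 := by exact_mod_cast hz1
      linarith
    have h5 : ‖(t : ℂ) ^ 2‖ ≤ 9 / 10 := by
      rw [h3, Complex.norm_real, Real.norm_eq_abs, abs_of_nonneg (sq_nonneg t)]
      exact h4.le
    have h6 := near_bound h5 hz1
    have h7 := x_le hM h5 hz1
    have h8 : ‖1 - 2 * (t : ℂ) ^ 2‖ = |1 - 2 * t ^ 2| := by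
      rw [← Real.norm_eq_abs, ← Complex.norm_real]; push_cast; rfl
    have h9 : ‖(t : ℂ)‖ ^ 2 = t ^ 2 := by
      rw [Complex.norm_real, Real.norm_eq_abs, sq_abs]
    rw [h8] at h6 h7
    rw [sq_abs] at h6
    rw [h9]
    have h10 : 1 / 4 ≤ t ^ 2 := by
      have := (abs_le.1 h7).2
      linarith
    exact (log_bound h10).trans (by linarith)
  have hRsum2 : ∑ z ∈ realConj α, (1 / 2 + 1 / 2 * Real.log 2 + 5 * (9 / 10 : ℝ) ^ M) =
      2 + 2 * Real.log 2 + 20 * (9 / 10 : ℝ) ^ M := by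
    rw [Finset.sum_const, hcard4, nsmul_eq_mul]
    push_cast
    ring
  rw [hRsum2, Finset.sum_sub_distrib, ← Finset.mul_sum] at hRsum
  have hδ2 : (4 * ((M : ℝ) + 1) - 4) * δ ^ 2 ≤ 36 / ((M : ℝ) + 1) := by
    calc (4 * ((M : ℝ) + 1) - 4) * δ ^ 2 ≤ (4 * ((M : ℝ) + 1)) * δ ^ 2 := by
          gcongr; linarith
      _ = 36 / ((M : ℝ) + 1) := by rw [hδ]; field_simp; ring
  unfold sqSize
  rw [upper_sum hmem]
  have e1 : (18 : ℝ) / ((M : ℝ) + 1) = 36 / ((M : ℝ) + 1) / 2 := by ring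
  rw [e1]
  rw [hNsum2] at hNsum
  have e2 : (4 * ((M : ℝ) + 1) - 4) * (1 + δ ^ 2) =
    (4 * ((M : ℝ) + 1) - 4) + (4 * ((M : ℝ) + 1) - 4) * δ ^ 2 := by ring
  rw [e2] at hNsum
  linarith

end

/-- The lower bound `n 2^(s/n-1)` is sharp for `s = 4`. -/
theorem result : IsSharpFor 4 := by
  intro ε hε
  obtain ⟨M₀, hM₀⟩ := eventually_good
  have h1 : Filter.Tendsto (fun M : ℕ => 20 * (9 / 10 : ℝ) ^ M + 18 / ((M : ℝ) + 1))
      Filter.atTop (nhds (20 * 0 + 0)) := by
    apply Filter.Tendsto.add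
    · exact (tendsto_pow_atTop_nhds_zero_of_lt_one (by norm_num) (by norm_num)).const_mul _
    · apply Filter.Tendsto.div_atTop tendsto_const_nhds
      exact Filter.tendsto_atTop_add_const_right _ _ tendsto_natCast_atTop_atTop
  rw [mul_zero, add_zero] at h1
  obtain ⟨M₁, hM₁⟩ := Filter.eventually_atTop.1 (h1.eventually (gt_mem_nhds hε))
  obtain ⟨i, hi⟩ : ∃ i : ℕ, max M₀ M₁ + 1 ≤ 2 ^ i :=
    ⟨max M₀ M₁ + 1, (Nat.lt_two_pow_self).le⟩
  obtain ⟨M, hM⟩ : ∃ M : ℕ, M + 1 = 2 ^ i := ⟨2 ^ i - 1, by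
    have : 0 < 2 ^ i := by positivity
    omega⟩
  have hMge : max M₀ M₁ ≤ M := by omega
  have hgood := hM₀ M ((le_max_left _ _).trans hMge)
  have herr := hM₁ M ((le_max_right _ _).trans hMge)
  have hMreal : (0 : ℝ) < 4 * ((M : ℝ) + 1) := by positivity
  obtain ⟨α, hα⟩ : ∃ α : ℂ, (Q M).IsRoot α := by
    apply IsAlgClosed.exists_root
    rw [degree_eq_natDegree (Q_monic hgood.two_le).ne_zero, Q_natDegree hgood.two_le]
    exact_mod_cast (by omega : 4 * (M + 1) ≠ 0)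
  have hα' : aeval α (P M) = 0 := by
    rw [IsRoot.def, Q, eval_map_algebraMap] at hα
    exact hα
  have hdeg : deg α = 4 * (M + 1) := by
    unfold deg
    rw [minpoly_eq M i hgood.two_le hM α hα', (P_monic M hgood.two_le).natDegree_map,
      P_natDegree M hgood.two_le]
  obtain ⟨hcard, hsize⟩ := main_bound hgood hM hα'
  refine ⟨α, ⟨P M, P_monic M hgood.two_le, by simpa [aeval_def] using hα'⟩, ?_, ?_, hcard, ?_⟩
  · rintro rfl
    rw [IsRoot.def, Q_eval_F] at hα
    have h2 : F M ((0 : ℂ) ^ 2) = 1 := by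
      have := hgood.two_le
      simp [F, show M ≠ 0 by omega]
    rw [h2] at hα
    exact one_ne_zero hα
  · rw [hdeg]; omega
  · rw [hdeg]
    push_cast
    have h3 := target_bound hMreal
    linarith

end Pool.Agent.Results.MP_bf7c2b_nt.SharpFour
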